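import Mathlib
import Pool.Agent.Lib.MP_27ef93_an.Lift

set_option autoImplicit false

namespace Pool.Agent.Results.MP_27ef93_an.CalkinNoBoundedLifting

/-- **Bounded liftings from the Calkin algebra need not exist.** Let `H` be a separable
infinite-dimensional complex Hilbert space (that is, `ℓ²`). There is a separable closed subspace
`X` of the Calkin algebra `B(H)/K(H)` such that the inclusion of `X` has no bounded linear lifting
to `B(H)`. -/
theorem result (H : Type*) [NormedAddCommGroup H] [InnerProductSpace ℂ H] [CompleteSpace H]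
    [TopologicalSpace.SeparableSpace H] (hH : ¬ FiniteDimensional ℂ H) :
    ∃ X : Submodule ℂ ((H →L[ℂ] H) ⧸ compactOperator (RingHom.id ℂ) H H),
      IsClosed (X : Set ((H →L[ℂ] H) ⧸ compactOperator (RingHom.id ℂ) H H)) ∧
      TopologicalSpace.SeparableSpace X ∧
      ¬ ∃ u : X →L[ℂ] (H →L[ℂ] H), ∀ x : X,
        (Submodule.Quotient.mk (u x) : (H →L[ℂ] H) ⧸ compactOperator (RingHom.id ℂ) H H) = x :=
  MP27ef93.no_lifting' H hH

end Pool.Agent.Results.MP_27ef93_an.CalkinNoBoundedLifting
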