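import Mathlib
import Pool.Agent.Lib.MP_27ef93_an.FinalB

set_option autoImplicit false

namespace Pool.Agent.Results.MP_27ef93_an.MaxNotLocallyReflexive

open MP27ef93

/-- **Negative answer to the question of Ozawa.** Let `H` be a separable infinite-dimensional
complex Hilbert space (that is, `ℓ²`). For every real number `C`, the maximal operator space
structure on the Banach space `B(H)` of bounded operators is not locally reflexive with
constant `C`. -/
theorem result (H : Type) [NormedAddCommGroup H] [InnerProductSpace ℂ H] [CompleteSpace H]
    [TopologicalSpace.SeparableSpace H] (hH : ¬ FiniteDimensional ℂ H) (C : ℝ) :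
    ¬ LocallyReflexive (maxN (H →L[ℂ] H)) C := by
  obtain ⟨U⟩ := exists_U H hH
  exact not_locRefl H U C

end Pool.Agent.Results.MP_27ef93_an.MaxNotLocallyReflexive
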